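import Pool.Agent.H45.Lib.S8.W223.HZ.Stms

set_option autoImplicit false

namespace Pool.Agent.W61.HZ

open Polynomial
open Pool.Agent.W223.HZ

/-- values of `N` polynomials at `N` points which are congruent -/
theorem det_dvd (p : ℤ) (N : ℕ) (T : Fin N → ℤ) (hT : ∀ i j, p ∣ T i - T j) (h : Fin N → ℤ[X]) :
    p ^ (N * (N - 1) / 2) ∣ Matrix.det (Matrix.of fun i j : Fin N => (h j).eval (T i)) := by
  classical
  let Q : ℤ[X] := ∏ i : Fin N, (X - C (T i))
  have hQ : Q.Monic := monic_prod_X_sub_C T Finset.univ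
  have hQd : Q.natDegree = N := by
    show (∏ i : Fin N, (X - C (T i))).natDegree = N
    rw [natDegree_prod_of_monic _ _ (fun i _ => monic_X_sub_C _),
      Finset.sum_congr rfl (fun i _ => natDegree_X_sub_C (T i))]
    simp
  have hroot : ∀ i, Q.eval (T i) = 0 := by
    intro i
    show (∏ i : Fin N, (X - C (T i))).eval (T i) = 0
    rw [eval_prod]
    exact Finset.prod_eq_zero (Finset.mem_univ i) (by simp)
  have hev : ∀ i j, (h j).eval (T i) = (h j %ₘ Q).eval (T i) := by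
    intro i j
    have h1 := congrArg (eval (T i)) (modByMonic_add_div (h j) Q)
    rw [eval_add, eval_mul, hroot, zero_mul, add_zero] at h1
    exact h1.symm
  have hcoef : ∀ i j, (h j %ₘ Q).eval (T i) = ∑ l : Fin N, T i ^ (l : ℕ) * (h j %ₘ Q).coeff l := by
    intro i j
    have hdeg : (h j %ₘ Q).natDegree < N ∨ N = 0 := by
      rcases Nat.eq_zero_or_pos N with h0 | h0
      · exact Or.inr h0
      · left
        rw [← hQd]
        apply natDegree_modByMonic_lt _ hQ
        intro hQ1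
        have : Q.natDegree = 0 := by rw [hQ1]; simp
        omega
    rcases hdeg with hdeg | h0
    · rw [eval_eq_sum_range' hdeg, ← Fin.sum_univ_eq_sum_range
        (fun l => (h j %ₘ Q).coeff l * T i ^ l)]
      exact Finset.sum_congr rfl fun l _ => mul_comm _ _
    · subst h0
      exact i.elim0
  have hmat : (Matrix.of fun i j : Fin N => (h j).eval (T i)) =
      Matrix.vandermonde T * Matrix.of fun l j : Fin N => (h j %ₘ Q).coeff l := by
    ext i j
    rw [Matrix.mul_apply, Matrix.of_apply, hev, hcoef]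
    simp [Matrix.vandermonde_apply]
  rw [hmat, Matrix.det_mul, Matrix.det_vandermonde]
  apply Dvd.dvd.mul_right
  have h1 : (∏ i : Fin N, ∏ j ∈ Finset.Ioi i, p) ∣ ∏ i : Fin N, ∏ j ∈ Finset.Ioi i, (T j - T i) :=
    Finset.prod_dvd_prod_of_dvd _ _ fun i _ => Finset.prod_dvd_prod_of_dvd _ _ fun j _ => hT j i
  have h2 : (∏ i : Fin N, ∏ j ∈ Finset.Ioi i, p) = p ^ (N * (N - 1) / 2) := by
    simp only [Finset.prod_const, Fin.card_Ioi]
    rw [Finset.prod_pow_eq_pow_sum]
    congr 1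
    rw [Fin.sum_univ_eq_sum_range (fun i => N - 1 - i) N, Finset.sum_range_reflect (fun i => i) N,
      Finset.sum_range_id]
  rw [← h2]
  exact h1

/-- Hensel approximation by a polynomial. -/
theorem approx (p : ℕ) (hp : p.Prime) (hp3 : 3 < p) (G : ℤ[X]) {ι : Type} (τ g : ι → ℤ) (i0 : ι)
    (hg : ∀ i, g i ^ 3 = G.eval (τ i)) (hpg : ∀ i, ¬ (p : ℤ) ∣ g i)
    (hgg : ∀ i j, (p : ℤ) ∣ g i - g j) (k : ℕ) :
    ∃ c : ℤ[X], ∀ i, (p : ℤ) ^ (k + 1) ∣ c.eval (τ i) - g i := by
  have hpp : Prime (p : ℤ) := Nat.prime_iff_prime_int.1 hp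
  have h3 : ¬ (p : ℤ) ∣ 3 := by
    intro h
    have := Int.le_of_dvd (by norm_num) h
    omega
  have hu : ∃ u : ℤ, (p : ℤ) ∣ 1 - u * (3 * g i0 ^ 2) := by
    have hnd : ¬ (p : ℤ) ∣ 3 * g i0 ^ 2 := by
      intro h
      rcases hpp.dvd_or_dvd h with h | h
      · exact h3 h
      · exact hpg i0 (hpp.dvd_of_dvd_pow h)
    have hcop : IsCoprime (p : ℤ) (3 * g i0 ^ 2) := (Prime.coprime_iff_not_dvd hpp).2 hnd
    obtain ⟨a, b, hab⟩ := hcop
    exact ⟨b, ⟨a, by linarith⟩⟩
  obtain ⟨u, hu⟩ := hu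
  induction k with
  | zero =>
    refine ⟨C (g i0), fun i => ?_⟩
    rw [eval_C, zero_add, pow_one]
    exact hgg i0 i
  | succ k ih =>
    obtain ⟨c, hc⟩ := ih
    refine ⟨c - C u * (c ^ 3 - G), fun i => ?_⟩
    have h1 : (c - C u * (c ^ 3 - G)).eval (τ i) - g i =
        (c.eval (τ i) - g i) *
          (1 - u * (c.eval (τ i) ^ 2 + c.eval (τ i) * g i + g i ^ 2)) := by
      simp only [eval_sub, eval_mul, eval_C, eval_pow]
      rw [← hg i]
      ring
    rw [h1, pow_succ]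
    apply mul_dvd_mul (hc i)
    have hci : (p : ℤ) ∣ c.eval (τ i) - g i := (dvd_pow_self _ (Nat.succ_ne_zero k)).trans (hc i)
    obtain ⟨r, hr⟩ := hci
    obtain ⟨s, hs⟩ := hgg i i0
    obtain ⟨v, hv⟩ := hu
    have e1 : c.eval (τ i) = g i + p * r := by linarith
    have e2 : g i = g i0 + p * s := by linarith
    have e3 : (1 : ℤ) = u * (3 * g i0 ^ 2) + p * v := by linarith
    refine ⟨v - u * (3 * g i * r + p * r ^ 2 + 6 * g i0 * s + 3 * p * s ^ 2), ?_⟩
    rw [e1]
    have e4 : (g i + p * r) ^ 2 + (g i + p * r) * g i + g i ^ 2 =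
        3 * g i ^ 2 + p * (3 * g i * r + p * r ^ 2) := by ring
    have e5 : 3 * g i ^ 2 = 3 * g i0 ^ 2 + p * (6 * g i0 * s + 3 * p * s ^ 2) := by
      rw [e2]; ring
    rw [e4, e5]
    linear_combination e3

theorem t : StmtPAD := by
  classical
  intro p hp hp3 G m hm τ g hg hpg hτ hgg
  let i0 : Fin m ⊕ Fin m := Sum.inl ⟨0, by omega⟩
  obtain ⟨c, hc⟩ := approx p hp hp3 G τ g i0 hg hpg hgg (m * (2 * m - 1))
  let h : Fin m ⊕ Fin m → ℤ[X] := Sum.elim (fun j : Fin m => X ^ (j : ℕ))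
    (fun j : Fin m => c * X ^ (j : ℕ))
  let e : Fin m ⊕ Fin m ≃ Fin (m + m) := finSumFinEquiv
  have h1 := det_dvd (p : ℤ) (m + m) (fun i => τ (e.symm i)) (fun i j => hτ _ _)
    (fun j => h (e.symm j))
  have h2 : Matrix.det (Matrix.of fun i j : Fin (m + m) => (h (e.symm j)).eval (τ (e.symm i))) =
      Matrix.det (Matrix.of fun i j : Fin m ⊕ Fin m => (h j).eval (τ i)) := by
    rw [← Matrix.det_submatrix_equiv_self e.symm
      (Matrix.of fun i j : Fin m ⊕ Fin m => (h j).eval (τ i))]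
    rfl
  have h3 : (m + m) * (m + m - 1) / 2 = m * (2 * m - 1) := by
    have : (m + m) * (m + m - 1) = 2 * (m * (2 * m - 1)) := by
      rw [show m + m = 2 * m by ring]
      ring
    rw [this]
    omega
  rw [h2, h3] at h1
  have hcast : ((Matrix.det (Matrix.of fun i : Fin m ⊕ Fin m =>
      Sum.elim (fun j : Fin m => τ i ^ (j : ℕ)) (fun j : Fin m => g i * τ i ^ (j : ℕ))) : ℤ) :
        ZMod (p ^ (m * (2 * m - 1)))) =
      ((Matrix.det (Matrix.of fun i j : Fin m ⊕ Fin m => (h j).eval (τ i)) : ℤ) :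
        ZMod (p ^ (m * (2 * m - 1)))) := by
    change (Int.castRingHom (ZMod (p ^ (m * (2 * m - 1))))) _ =
      (Int.castRingHom (ZMod (p ^ (m * (2 * m - 1))))) _
    rw [RingHom.map_det, RingHom.map_det]
    congr 1
    ext i j
    rcases j with j | j
    · simp [h]
    · have h4 : ((c.eval (τ i) : ℤ) : ZMod (p ^ (m * (2 * m - 1)))) = (g i : ℤ) := by
        rw [ZMod.intCast_eq_intCast_iff_dvd_sub]
        have h5 := hc i
        rw [pow_succ] at h5
        have h6 : ((p ^ (m * (2 * m - 1)) : ℕ) : ℤ) ∣ c.eval (τ i) - g i := by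
          push_cast
          exact (Dvd.intro _ rfl).trans h5
        rw [← neg_sub, dvd_neg]
        exact h6
      simp [h, h4]
  rw [ZMod.intCast_eq_intCast_iff_dvd_sub] at hcast
  push_cast at hcast
  have h7 := dvd_sub h1 hcast
  simpa using h7

end Pool.Agent.W61.HZ
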